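import Pool.Agent.R967.PR.Fin

/-! The stability constant `ω(A)` of a Gaussian `(2M-1) × M` matrix is `4^{-M (1 + o(1))}` with
probability tending to one: the Balan–Wang bound `ω(A) ≤ C max_k ‖A_k‖ β^M` holds with probability
tending to one for every `β > 1/4`, and fails with probability tending to one for every
`β < 1/4`. -/

namespace Pool.Agent.Results.MP_77e4cc_pr.GaussianBalanWang

open MeasureTheory ProbabilityTheory Set Filter Topology R967.PR
open scoped ENNReal NNReal RealInnerProductSpace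

lemma norm_le_maxRow {N M : ℕ} (A : Matrix (Fin N) (Fin M) ℝ) (k : Fin N) :
    Real.sqrt (∑ j, A k j ^ 2) ≤ maxRow A :=
  le_ciSup (f := fun k : Fin N => Real.sqrt (∑ j, A k j ^ 2)) (Set.finite_range _).bddAbove k

lemma norm_rowv {N M : ℕ} (A : Matrix (Fin N) (Fin M) ℝ) (k : Fin N) :
    ‖rowv A k‖ = Real.sqrt (∑ j, A k j ^ 2) := by
  rw [EuclideanSpace.norm_eq]
  simp [rowv]

/-- one entry is rarely small -/
lemma entry_small (M : ℕ) (hM : 1 ≤ M) (ε : ℝ) :
    gaussMat M {A | maxRow (Matrix.of A) ≤ ε} ≤ ENNReal.ofReal ε := by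
  set i : Fin (2 * M - 1) := ⟨0, by omega⟩
  set j : Fin M := ⟨0, by omega⟩
  have h1 : MeasurePreserving (fun A : Fin (2 * M - 1) → Fin M → ℝ => A i j) (gaussMat M)
      (gaussianReal 0 1) := by
    have e1 : MeasurePreserving (Function.eval i : (Fin (2 * M - 1) → Fin M → ℝ) → _) (gaussMat M)
        (Measure.pi fun _ : Fin M => gaussianReal 0 1) :=
      measurePreserving_eval (fun _ : Fin (2 * M - 1) => Measure.pi fun _ : Fin M => gaussianReal 0 1) i
    have e2 : MeasurePreserving (Function.eval j : (Fin M → ℝ) → ℝ)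
        (Measure.pi fun _ : Fin M => gaussianReal 0 1) (gaussianReal 0 1) :=
      measurePreserving_eval (fun _ : Fin M => gaussianReal 0 1) j
    exact e2.comp e1
  have hms : MeasurableSet {y : ℝ | ‖y‖ₑ ≤ ENNReal.ofReal ε} :=
    measurableSet_le (by fun_prop) measurable_const
  calc gaussMat M {A | maxRow (Matrix.of A) ≤ ε}
      ≤ gaussMat M ((fun A : Fin (2 * M - 1) → Fin M → ℝ => A i j) ⁻¹'
          {y : ℝ | ‖y‖ₑ ≤ ENNReal.ofReal ε}) := by
        apply measure_mono
        intro A hA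
        have h2 : |A i j| ≤ ε := by
          refine le_trans ?_ ((norm_le_maxRow (Matrix.of A) i).trans hA)
          rw [← Real.sqrt_sq_eq_abs]
          apply Real.sqrt_le_sqrt
          exact Finset.single_le_sum (f := fun j => (Matrix.of A) i j ^ 2)
            (fun j _ => sq_nonneg _) (Finset.mem_univ j)
        change ‖A i j‖ₑ ≤ ENNReal.ofReal ε
        rw [Real.enorm_eq_ofReal_abs]
        exact ENNReal.ofReal_le_ofReal h2
    _ = gaussianReal 0 1 {y : ℝ | ‖y‖ₑ ≤ ENNReal.ofReal ε} :=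
        h1.measure_preimage hms.nullMeasurableSet
    _ ≤ ENNReal.ofReal ε := small_upper _

/-- the rows are rarely large -/
lemma rows_large (M : ℕ) (hM : 1 ≤ M) :
    gaussMat M {A | (M : ℝ) ^ 2 < maxRow (Matrix.of A)} ≤ ENNReal.ofReal (2 / (M : ℝ) ^ 2) := by
  have hMpos : (0 : ℝ) < M := by exact_mod_cast hM
  set γ := stdGaussian (EuclideanSpace ℝ (Fin M))
  set P := (Measure.pi fun _ : Fin (2 * M - 1) => γ) with hP
  set V : Set (EuclideanSpace ℝ (Fin M)) := {x | ENNReal.ofReal ((M : ℝ) ^ 4) ≤ ‖x‖ₑ ^ (2 : ℕ)}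
    with hV
  have hVm : MeasurableSet V := measurableSet_le measurable_const (by fun_prop)
  have hγV : γ V ≤ ENNReal.ofReal (1 / (M : ℝ) ^ 3) := by
    have h1 := meas_ge_le_lintegral_div (μ := γ) (f := fun x => ‖x‖ₑ ^ (2 : ℕ)) (by fun_prop)
      (ε := ENNReal.ofReal ((M : ℝ) ^ 4)) (ENNReal.ofReal_pos.2 (by positivity)).ne'
      ENNReal.ofReal_ne_top
    refine h1.trans ?_
    rw [sq_moment, finrank_euclideanSpace_fin, ← ENNReal.ofReal_natCast,
      ← ENNReal.ofReal_div_of_pos (by positivity)]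
    apply ENNReal.ofReal_le_ofReal
    apply le_of_eq
    field_simp
  calc gaussMat M {A | (M : ℝ) ^ 2 < maxRow (Matrix.of A)}
      ≤ gaussMat M ((fun A => rowv (Matrix.of A)) ⁻¹' (⋃ k, Function.eval k ⁻¹' V)) := by
        apply measure_mono
        intro A hA
        rw [mem_preimage, mem_iUnion]
        by_contra hcon
        push Not at hcon
        have hne : Nonempty (Fin (2 * M - 1)) := ⟨⟨0, by omega⟩⟩
        have h2 : maxRow (Matrix.of A) ≤ (M : ℝ) ^ 2 := by
          apply ciSup_le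
          intro k
          have h3 := hcon k
          simp only [mem_preimage, Function.eval, hV, mem_ofPred_eq, not_le] at h3
          rw [← norm_rowv]
          rw [← ofReal_norm, ← ENNReal.ofReal_pow (norm_nonneg _),
            ENNReal.ofReal_lt_ofReal_iff_of_nonneg (by positivity)] at h3
          have h4 : ‖rowv (Matrix.of A) k‖ ^ 2 ≤ ((M : ℝ) ^ 2) ^ 2 := by
            rw [← pow_mul]; exact h3.le
          exact (sq_le_sq₀ (norm_nonneg _) (by positivity)).1 h4
        exact absurd hA (not_lt.2 h2)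
    _ = P (⋃ k, Function.eval k ⁻¹' V) :=
        (mp_rows M).measure_preimage (MeasurableSet.iUnion fun k =>
          (measurable_pi_apply k) hVm).nullMeasurableSet
    _ ≤ ∑ k : Fin (2 * M - 1), P (Function.eval k ⁻¹' V) := measure_iUnion_fintype_le _ _
    _ = ∑ k : Fin (2 * M - 1), γ V := by
        apply Finset.sum_congr rfl
        intro k _
        exact (measurePreserving_eval (fun _ : Fin (2 * M - 1) => γ) k).measure_preimage
          hVm.nullMeasurableSet
    _ ≤ ∑ k : Fin (2 * M - 1), ENNReal.ofReal (1 / (M : ℝ) ^ 3) :=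
        Finset.sum_le_sum fun _ _ => hγV
    _ = ((2 * M - 1 : ℕ) : ℝ≥0∞) * ENNReal.ofReal (1 / (M : ℝ) ^ 3) := by
        rw [Finset.sum_const, Finset.card_univ, Fintype.card_fin, nsmul_eq_mul]
    _ ≤ ENNReal.ofReal (2 / (M : ℝ) ^ 2) := by
        rw [← ENNReal.ofReal_natCast, ← ENNReal.ofReal_mul (by positivity)]
        apply ENNReal.ofReal_le_ofReal
        have h5 : ((2 * M - 1 : ℕ) : ℝ) ≤ 2 * M := by
          have : 2 * M - 1 ≤ 2 * M := Nat.sub_le _ _
          exact_mod_cast this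
        calc ((2 * M - 1 : ℕ) : ℝ) * (1 / (M : ℝ) ^ 3) ≤ 2 * M * (1 / (M : ℝ) ^ 3) := by gcongr
          _ = 2 / (M : ℝ) ^ 2 := by field_simp

/-- `β > 1/4`: the Balan–Wang bound fails with probability tending to zero. -/
lemma part1 (C : ℝ) (hC : 0 < C) (β : ℝ) (hβ : 1 / 4 < β) :
    Tendsto (fun M : ℕ => gaussMat M
      {A | C * maxRow (Matrix.of A) * β ^ M < omega (Matrix.of A)}) atTop (𝓝 0) := by
  obtain ⟨β1, h1, h2⟩ := exists_between hβ
  have hβ0 : 0 < β := by linarith
  have hβ10 : 0 < β1 := by linarith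
  have hq0 : 0 ≤ β1 / β := by positivity
  have hq1 : β1 / β < 1 := (div_lt_one hβ0).2 h2
  have hU := upper_all β1 h1
  have hE : Tendsto (fun M : ℕ => ENNReal.ofReal ((β1 / β) ^ M / C)) atTop (𝓝 0) := by
    have := ENNReal.tendsto_ofReal ((tendsto_pow_atTop_nhds_zero_of_lt_one hq0 hq1).div_const C)
    simpa using this
  have hS := hU.add hE
  rw [add_zero] at hS
  apply tendsto_of_tendsto_of_tendsto_of_le_of_le' tendsto_const_nhds hS
    (Eventually.of_forall fun _ => bot_le)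
  filter_upwards [eventually_ge_atTop 1] with M hM
  have hsub : {A : Fin (2 * M - 1) → Fin M → ℝ | C * maxRow (Matrix.of A) * β ^ M < omega (Matrix.of A)}
      ⊆ {A | β1 ^ M < omega (Matrix.of A)} ∪ {A | maxRow (Matrix.of A) ≤ (β1 / β) ^ M / C} := by
    intro A hA
    by_contra hcon
    rw [mem_union, not_or] at hcon
    obtain ⟨h3, h4⟩ := hcon
    simp only [mem_ofPred_eq, not_lt, not_le] at h3 h4 hA
    have h5 : (β1 / β) ^ M < maxRow (Matrix.of A) * C := (div_lt_iff₀ hC).1 h4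
    rw [div_pow, div_lt_iff₀ (by positivity)] at h5
    have h6 : C * maxRow (Matrix.of A) * β ^ M < β1 ^ M := lt_of_lt_of_le hA h3
    have h7 : maxRow (Matrix.of A) * C * β ^ M = C * maxRow (Matrix.of A) * β ^ M := by ring
    linarith
  calc _ ≤ gaussMat M ({A | β1 ^ M < omega (Matrix.of A)} ∪ {A | maxRow (Matrix.of A) ≤ (β1 / β) ^ M / C}) :=
        measure_mono hsub
    _ ≤ _ := measure_union_le _ _
    _ ≤ _ := by gcongr; exact entry_small M hM _

/-- `β < 1/4`: the Balan–Wang bound holds with probability tending to zero. -/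
lemma part2 (C : ℝ) (hC : 0 < C) (β : ℝ) (hβ0 : 0 ≤ β) (hβ : β < 1 / 4) :
    Tendsto (fun M : ℕ => gaussMat M
      {A | omega (Matrix.of A) ≤ C * maxRow (Matrix.of A) * β ^ M}) atTop (𝓝 0) := by
  have hL := lower_all
  have hR : Tendsto (fun M : ℕ => ENNReal.ofReal (2 / (M : ℝ) ^ 2)) atTop (𝓝 0) := by
    have h1 : Tendsto (fun M : ℕ => 2 / (M : ℝ) ^ 2) atTop (𝓝 0) := by
      apply Tendsto.const_div_atTop
      exact (tendsto_pow_atTop (by norm_num)).comp tendsto_natCast_atTop_atTop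
    have := ENNReal.tendsto_ofReal h1
    simpa using this
  have hS := hL.add hR
  rw [add_zero] at hS
  apply tendsto_of_tendsto_of_tendsto_of_le_of_le' tendsto_const_nhds hS
    (Eventually.of_forall fun _ => bot_le)
  have hsmall : ∀ᶠ M : ℕ in atTop, C * ((M : ℝ) ^ 4 * (4 * β) ^ M) < 1 := by
    have h1 : Tendsto (fun M : ℕ => (M : ℝ) ^ 4 * (4 * β) ^ M) atTop (𝓝 0) :=
      tendsto_pow_const_mul_const_pow_of_abs_lt_one 4 (by
        rw [abs_of_nonneg (by linarith)]; linarith)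
    have h2 := h1.const_mul C
    rw [mul_zero] at h2
    exact h2.eventually_lt_const (by norm_num)
  filter_upwards [eventually_ge_atTop 1, hsmall] with M hM hsm
  have hMpos : (0 : ℝ) < M := by exact_mod_cast hM
  have hsub : {A : Fin (2 * M - 1) → Fin M → ℝ | omega (Matrix.of A) ≤ C * maxRow (Matrix.of A) * β ^ M}
      ⊆ {A | omega (Matrix.of A) < (1 / 4) ^ M / (M : ℝ) ^ 2}
        ∪ {A | (M : ℝ) ^ 2 < maxRow (Matrix.of A)} := by
    intro A hA
    by_contra hcon
    rw [mem_union, not_or] at hcon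
    obtain ⟨h3, h4⟩ := hcon
    simp only [mem_ofPred_eq, not_lt] at h3 h4 hA
    have h5 : (1 / 4 : ℝ) ^ M / (M : ℝ) ^ 2 ≤ C * (M : ℝ) ^ 2 * β ^ M := by
      refine h3.trans (hA.trans ?_)
      gcongr
    rw [div_le_iff₀ (by positivity)] at h5
    have h6 : (4 : ℝ) ^ M * (1 / 4) ^ M = 1 := by rw [← mul_pow]; norm_num
    have h7 : (1 : ℝ) ≤ C * ((M : ℝ) ^ 4 * (4 * β) ^ M) := by
      calc (1 : ℝ) = 4 ^ M * (1 / 4) ^ M := h6.symm
        _ ≤ 4 ^ M * (C * (M : ℝ) ^ 2 * β ^ M * (M : ℝ) ^ 2) := by gcongr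
        _ = _ := by rw [mul_pow]; ring
    linarith
  calc _ ≤ gaussMat M ({A | omega (Matrix.of A) < (1 / 4) ^ M / (M : ℝ) ^ 2}
        ∪ {A | (M : ℝ) ^ 2 < maxRow (Matrix.of A)}) := measure_mono hsub
    _ ≤ _ := measure_union_le _ _
    _ ≤ _ := by gcongr; exact rows_large M hM

/-- if the exceptional events have probabilities tending to zero then the events themselves have
probabilities tending to one -/
lemma tendsto_one (f : (M : ℕ) → Set (Fin (2 * M - 1) → Fin M → ℝ))
    (h : Tendsto (fun M : ℕ => gaussMat M (f M)ᶜ) atTop (𝓝 0)) :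
    Tendsto (fun M : ℕ => gaussMat M (f M)) atTop (𝓝 1) := by
  have h1 : Tendsto (fun M : ℕ => 1 - gaussMat M (f M)ᶜ) atTop (𝓝 (1 - 0)) :=
    ENNReal.Tendsto.sub tendsto_const_nhds h (Or.inl ENNReal.one_ne_top)
  rw [tsub_zero] at h1
  apply tendsto_of_tendsto_of_tendsto_of_le_of_le h1 tendsto_const_nhds
  · intro M
    simp only
    rw [tsub_le_iff_right]
    have h2 := measure_union_le (μ := gaussMat M) (f M) (f M)ᶜ
    rw [union_compl_self, measure_univ] at h2
    exact h2
  · intro M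
    exact prob_le_one

/-- **Answer to Q2** (and Q1 on the exponential scale).  For a `(2M-1) × M` matrix with independent
standard Gaussian entries, `M → ∞`:
* for all `C > 0` and `β > 1/4`, `ω(A) ≤ C max_k ‖A_k‖ β^M` with probability tending to one;
* for all `C > 0` and `0 ≤ β < 1/4`, this event has probability tending to zero;
* so the infimum of the admissible `β` is `1/4`;
* `4^{-M} M^{-2} ≤ ω(A) ≤ β^M` with probability tending to one, for every `β > 1/4`. -/
theorem result :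
    (∀ C : ℝ, 0 < C → ∀ β : ℝ, 1 / 4 < β → Tendsto (fun M : ℕ => gaussMat M
      {A | omega (Matrix.of A) ≤ C * maxRow (Matrix.of A) * β ^ M}) atTop (𝓝 1)) ∧
    (∀ C : ℝ, 0 < C → ∀ β : ℝ, 1 / 4 < β → Tendsto (fun M : ℕ => gaussMat M
      {A | C * maxRow (Matrix.of A) * β ^ M < omega (Matrix.of A)}) atTop (𝓝 0)) ∧
    (∀ C : ℝ, 0 < C → ∀ β : ℝ, 0 ≤ β → β < 1 / 4 → Tendsto (fun M : ℕ => gaussMat M
      {A | omega (Matrix.of A) ≤ C * maxRow (Matrix.of A) * β ^ M}) atTop (𝓝 0)) ∧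
    IsGLB {β : ℝ | 0 < β ∧ β < 1 ∧ ∃ C : ℝ, 0 < C ∧ Tendsto (fun M : ℕ => gaussMat M
      {A | omega (Matrix.of A) ≤ C * maxRow (Matrix.of A) * β ^ M}) atTop (𝓝 1)} (1 / 4) ∧
    (∀ β : ℝ, 1 / 4 < β → Tendsto (fun M : ℕ => gaussMat M
      {A | β ^ M < omega (Matrix.of A)}) atTop (𝓝 0)) ∧
    Tendsto (fun M : ℕ => gaussMat M
      {A | omega (Matrix.of A) < (1 / 4) ^ M / (M : ℝ) ^ 2}) atTop (𝓝 0) := by
  have hone : ∀ C : ℝ, 0 < C → ∀ β : ℝ, 1 / 4 < β → Tendsto (fun M : ℕ => gaussMat M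
      {A | omega (Matrix.of A) ≤ C * maxRow (Matrix.of A) * β ^ M}) atTop (𝓝 1) := by
    intro C hC β hβ
    apply tendsto_one
    have h := part1 C hC β hβ
    refine h.congr fun M => ?_
    congr 1
    ext A
    simp
  refine ⟨hone, part1, part2, ⟨?_, ?_⟩, upper_all, lower_all⟩
  · rintro β ⟨hβ0, -, C, hC, h⟩
    by_contra hcon
    push Not at hcon
    have h1 := part2 C hC β hβ0.le hcon
    exact zero_ne_one (tendsto_nhds_unique h1 h)
  · intro b hb
    by_contra hcon
    push Not at hcon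
    obtain ⟨β, h1, h2⟩ := exists_between (lt_min hcon (by norm_num : (1 / 4 : ℝ) < 1))
    have h3 := hb ⟨by linarith, lt_of_lt_of_le h2 (min_le_right _ _), 1, one_pos, hone 1 one_pos β h1⟩
    have h4 := lt_of_lt_of_le h2 (min_le_left _ _)
    linarith

end Pool.Agent.Results.MP_77e4cc_pr.GaussianBalanWang
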